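import Pool.Agent.R85.GT.Base
import Pool.Agent.Y850.FA.T6Stab

/-! Six-vertex certificates for functions of the substructure on five vertices in 3-graphs without a
complete 3-graph on four vertices, with a bonus for the structures with 14 edges. -/

set_option autoImplicit false
set_option maxRecDepth 100000
set_option maxHeartbeats 4000000
open Finset

namespace Pool.Agent.U991.F5
open Pool.Agent.H122R2.N6 Pool.Agent.H37R3.Pen Pool.Agent.Y580.FL Pool.Agent.R85.GT Pool.Agent.Y850.FA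

/-- the right side: a table and a bonus for 14 edges -/
def ZP (tab : ℕ → ℕ) (G C P : ℕ) (b012 b013 b023 b123 b014 b024 b124 b034 b134 b234 b015 b025 b125 b035 b135 b235 b045 b145 b245 b345 : ℕ) : ℕ :=
  Nat.add (ZT tab G C b012 b013 b023 b123 b014 b024 b124 b034 b134 b234 b015 b025 b125 b035 b135 b235 b045 b145 b245 b345)
    (cond (Nat.beq (cnt b012 b013 b023 b123 b014 b024 b124 b034 b134 b234 b015 b025 b125 b035 b135 b235 b045 b145 b245 b345) 14) P 0)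

/-- the leaf inequality for all `K_4^3`-free extensions, with the right side `Z` -/
def chkV (q4 : ℕ → ℕ → ℕ → ℕ) (q2 : ℕ → ℕ → ℕ) (Z : ℕ → ℕ → ℕ → ℕ → ℕ → ℕ → ℕ → ℕ → ℕ → ℕ → ℕ → ℕ → ℕ → ℕ → ℕ → ℕ → ℕ → ℕ → ℕ → ℕ → ℕ) (b012 b013 b023 b123 b014 b024 b124 b034 b134 b234 : ℕ) : Bool :=
  B2 fun b015 => B2 fun b025 => B2 fun b125 => or (k4b b012 b015 b025 b125) (B2 fun b035 => B2 fun b135 => or (k4b b013 b015 b035 b135) (B2 fun b235 => or (k4b b023 b025 b035 b235) (or (k4b b123 b125 b135 b235) (B2 fun b045 => B2 fun b145 => or (k4b b014 b015 b045 b145) (B2 fun b245 => or (k4b b024 b025 b045 b245) (or (k4b b124 b125 b145 b245) (B2 fun b345 => or (k4b b034 b035 b045 b345) (or (k4b b134 b135 b145 b345) (or (k4b b234 b235 b245 b345) (Nat.ble (Nat.add (leaf4 q4 b012 b013 b023 b123 b014 b024 b124 b034 b134 b234 b015 b025 b125 b035 b135 b235 b045 b145 b245 b345) (leaf2 q2 b012 b013 b023 b123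 b014 b024 b124 b034 b134 b234 b015 b025 b125 b035 b135 b235 b045 b145 b245 b345)) (Z b012 b013 b023 b123 b014 b024 b124 b034 b134 b234 b015 b025 b125 b035 b135 b235 b045 b145 b245 b345)))))))))))

section
variable {V : Type} {E : V → V → V → ℕ}

theorem chkV_sound (hE : Sy E) (hK : NoK4 E) {q4 : ℕ → ℕ → ℕ → ℕ} {q2 : ℕ → ℕ → ℕ}
    {Z : ℕ → ℕ → ℕ → ℕ → ℕ → ℕ → ℕ → ℕ → ℕ → ℕ → ℕ → ℕ → ℕ → ℕ → ℕ → ℕ → ℕ → ℕ → ℕ → ℕ → ℕ} (a b c d e f : V)
    (h : chkV q4 q2 Z (E a b c) (E a b d) (E a c d) (E b c d) (E a b e) (E a c e) (E b c e) (E a d e) (E b d e) (E c d e) = true) :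
    K4l E q4 a b c d e f + K2l E q2 a b c d e f ≤ ZE E Z a b c d e f :=
  Nat.le_of_ble_eq_true (or_false_left (or_false_left (or_false_left (B2_true (or_false_left (or_false_left (B2_true (or_false_left (B2_true (B2_true (or_false_left (or_false_left (B2_true (or_false_left (B2_true (B2_true (or_false_left (B2_true (B2_true (B2_true h (hE.b a b f)) (hE.b a c f)) (hE.b b c f)) (hK a b c f)) (hE.b a d f)) (hE.b b d f)) (hK a b d f)) (hE.b c d f)) (hK a c d f)) (hK b c d f)) (hE.b a e f)) (hE.b b e f)) (hK a b e f)) (hE.b c e f)) (hK a c e f)) (hK b c e f)) (hE.b d e f)) (hK a d e f)) (hK b d e f)) (hK c d e f))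

theorem rep_goodV (hE : Sy E) (hK : NoK4 E) {q4 : ℕ → ℕ → ℕ → ℕ} {q2 : ℕ → ℕ → ℕ}
    {Z : ℕ → ℕ → ℕ → ℕ → ℕ → ℕ → ℕ → ℕ → ℕ → ℕ → ℕ → ℕ → ℕ → ℕ → ℕ → ℕ → ℕ → ℕ → ℕ → ℕ → ℕ}
    (hc : ∀ b012 b013 b023 b123 b014 b024 b124 b034 b134 b234 : ℕ, Bt b012 → Bt b013 → Bt b023 → Bt b123 → Bt b014 → Bt b024 → Bt b124 → Bt b034 → Bt b134 → Bt b234 → tg b012 b013 b023 b123 b014 b024 b124 b034 b134 b234 = 4 → chkV q4 q2 Z b012 b013 b023 b123 b014 b024 b124 b034 b134 b234 = true)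
    (b012 b013 b023 b123 b014 b024 b124 b034 b134 b234 : ℕ) (ht : tg b012 b013 b023 b123 b014 b024 b124 b034 b134 b234 = 4) : GoodX E q4 q2 0 1 (ZE E Z) b012 b013 b023 b123 b014 b024 b124 b034 b134 b234 := by
  intro a b c d e f h0 h1 h2 h3 h4 h5 h6 h7 h8 h9
  subst h0 h1 h2 h3 h4 h5 h6 h7 h8 h9
  have h := hc _ _ _ _ _ _ _ _ _ _ (hE.b _ _ _) (hE.b _ _ _) (hE.b _ _ _) (hE.b _ _ _) (hE.b _ _ _) (hE.b _ _ _) (hE.b _ _ _) (hE.b _ _ _) (hE.b _ _ _) (hE.b _ _ _) ht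
  have h2 := chkV_sound hE hK a b c d e f h
  rwa [K4l_eq E q4 hE.h132 hE.h231 hE.h213 hE.h312, K2l_eq E q2 hE.h132 hE.h231 hE.h213 hE.h312,
    ← Nat.zero_add (ZE E Z a b c d e f), ← Nat.one_mul (ZE E Z a b c d e f)] at h2

theorem leafV_all (hE : Sy E) (hK : NoK4 E) {q4 : ℕ → ℕ → ℕ → ℕ} {q2 : ℕ → ℕ → ℕ}
    {Z : ℕ → ℕ → ℕ → ℕ → ℕ → ℕ → ℕ → ℕ → ℕ → ℕ → ℕ → ℕ → ℕ → ℕ → ℕ → ℕ → ℕ → ℕ → ℕ → ℕ → ℕ}
    (hX0 : ∀ a b c d e f, ZE E Z b a c d e f = ZE E Z a b c d e f)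
    (hX1 : ∀ a b c d e f, ZE E Z a c b d e f = ZE E Z a b c d e f)
    (hX2 : ∀ a b c d e f, ZE E Z a b d c e f = ZE E Z a b c d e f)
    (hX3 : ∀ a b c d e f, ZE E Z a b c e d f = ZE E Z a b c d e f)
    (hs4 : sym4 q4 = true) (hs2 : sym2 q2 = true)
    (hc : ∀ b012 b013 b023 b123 b014 b024 b124 b034 b134 b234 : ℕ, Bt b012 → Bt b013 → Bt b023 → Bt b123 → Bt b014 → Bt b024 → Bt b124 → Bt b034 → Bt b134 → Bt b234 → tg b012 b013 b023 b123 b014 b024 b124 b034 b134 b234 = 4 → chkV q4 q2 Z b012 b013 b023 b123 b014 b024 b124 b034 b134 b234 = true)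
    (a b c d e f : V) : L4 E q4 a b c d e f + L2 E q2 a b c d e f ≤ ZE E Z a b c d e f := by
  have h := (B2_true (B2_true (B2_true (B2_true (B2_true (B2_true (B2_true (B2_true (B2_true (B2_true walk_all (hE.b a b c)) (hE.b a b d)) (hE.b a c d)) (hE.b b c d)) (hE.b a b e)) (hE.b a c e)) (hE.b b c e)) (hE.b a d e)) (hE.b b d e)) (hE.b c d e))
  have h5 : five (E a b c) (E a b d) (E a c d) (E b c d) (E a b e) (E a c e) (E b c e) (E a d e) (E b d e) (E c d e) = false := by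
    unfold five
    rw [hK a b c d, hK a b c e, hK a b d e, hK a c d e, hK b c d e]
    rfl
  have hw := or_false_left h h5
  have h3 := walk_goodX hE hX0 hX1 hX2 hX3 hs4 hs2 (fun b012 b013 b023 b123 b014 b024 b124 b034 b134 b234 h4 => rep_goodV hE hK hc b012 b013 b023 b123 b014 b024 b124 b034 b134 b234 h4) _ _ _ _ _ _ _ _ _ _ _ hw
    a b c d e f rfl rfl rfl rfl rfl rfl rfl rfl rfl rfl
  rwa [Nat.zero_add, Nat.one_mul] at h3

variable {tab : ℕ → ℕ}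

theorem ZP_eq (G C P : ℕ) (a b c d e f : V) :
    ZE E (ZP tab G C P) a b c d e f = (C - G * S6 tab E a b c d e f) + P * XM E 14 a b c d e f := by
  have h1 : ZE E (ZP tab G C P) a b c d e f = (C - G * S6 tab E a b c d e f) +
      cond (Nat.beq (cnt (E a b c) (E a b d) (E a c d) (E b c d) (E a b e) (E a c e) (E b c e) (E a d e) (E b d e) (E c d e) (E a b f) (E a c f) (E b c f) (E a d f) (E b d f) (E c d f) (E a e f) (E b e f) (E c e f) (E d e f)) 14) P 0 := rfl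
  rw [h1]
  congr 1
  unfold XM
  generalize cnt (E a b c) (E a b d) (E a c d) (E b c d) (E a b e) (E a c e) (E b c e) (E a d e) (E b d e) (E c d e) (E a b f) (E a c f) (E b c f) (E a d f) (E b d f) (E c d f) (E a e f) (E b e f) (E c e f) (E d e f) = m
  by_cases h : m = 14
  · subst h
    rw [if_pos rfl, mul_one]
    rfl
  · rw [if_neg h, mul_zero]
    have : Nat.beq m 14 = false := by
      rw [← Bool.not_eq_true]
      exact fun h2 => h (Nat.eq_of_beq_eq_true h2)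
    rw [this]
    rfl

theorem hP0 (hE : Sy E) (hi : invk tab = true) (G C P : ℕ) (a b c d e f : V) :
    ZE E (ZP tab G C P) b a c d e f = ZE E (ZP tab G C P) a b c d e f := by
  rw [ZP_eq, ZP_eq, XM_0 hE, ← ZE_eq G C, ← ZE_eq G C, hX0 hE hi]

theorem hP1 (hE : Sy E) (hi : invk tab = true) (G C P : ℕ) (a b c d e f : V) :
    ZE E (ZP tab G C P) a c b d e f = ZE E (ZP tab G C P) a b c d e f := by
  rw [ZP_eq, ZP_eq, XM_1 hE, ← ZE_eq G C, ← ZE_eq G C, hX1 hE hi]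

theorem hP2 (hE : Sy E) (hi : invk tab = true) (G C P : ℕ) (a b c d e f : V) :
    ZE E (ZP tab G C P) a b d c e f = ZE E (ZP tab G C P) a b c d e f := by
  rw [ZP_eq, ZP_eq, XM_2 hE, ← ZE_eq G C, ← ZE_eq G C, hX2 hE hi]

theorem hP3 (hE : Sy E) (hi : invk tab = true) (G C P : ℕ) (a b c d e f : V) :
    ZE E (ZP tab G C P) a b c e d f = ZE E (ZP tab G C P) a b c d e f := by
  rw [ZP_eq, ZP_eq, XM_3 hE, ← ZE_eq G C, ← ZE_eq G C, hX3 hE hi]

end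

section
variable {V : Type} [Fintype V]

theorem sv_zero (E : V → V → V → ℕ) : Sv E (fun _ => (0 : ℤ)) = 0 := by
  simp [Sv]

theorem t2_zero (E : V → V → V → ℕ) : T2 E (fun _ => (0 : ℤ)) = 0 := by
  simp [T2]

theorem conclP (tab : ℕ → ℕ) (E : V → V → V → ℕ) (G C P R T SH : ℕ) (htab : ∀ c, tab c ≤ T)
    (hG : G * (6 * T) ≤ C) (hC : C = 60 * SH + R)
    (hb : (15 * (SH : ℤ) + 45 * (SH : ℤ)) * (Fintype.card V : ℤ) ^ 6 ≤
      ∑ x : Fin 6 → V, (ZE E (ZP tab G C P) (x 0) (x 1) (x 2) (x 3) (x 4) (x 5) : ℤ)) :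
    6 * G * (Fintype.card V * S5 tab E) ≤ R * (Fintype.card V) ^ 6 +
      P * ∑ x : Fin 6 → V, XM E 14 (x 0) (x 1) (x 2) (x 3) (x 4) (x 5) := by
  have h1 : ∀ x : Fin 6 → V, (ZE E (ZP tab G C P) (x 0) (x 1) (x 2) (x 3) (x 4) (x 5) : ℤ) =
      (C : ℤ) - (G : ℤ) * ((S6 tab E (x 0) (x 1) (x 2) (x 3) (x 4) (x 5) : ℕ) : ℤ) +
        (P : ℤ) * (XM E 14 (x 0) (x 1) (x 2) (x 3) (x 4) (x 5) : ℤ) := by
    intro x
    rw [ZP_eq]
    have h2 : S6 tab E (x 0) (x 1) (x 2) (x 3) (x 4) (x 5) ≤ 6 * T := by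
      have hT : ∀ p q r s t : V, TE tab E p q r s t ≤ T := fun p q r s t => htab _
      unfold S6
      linarith [hT (x 0) (x 1) (x 2) (x 3) (x 4), hT (x 0) (x 1) (x 2) (x 3) (x 5),
        hT (x 0) (x 1) (x 2) (x 4) (x 5), hT (x 0) (x 1) (x 3) (x 4) (x 5),
        hT (x 0) (x 2) (x 3) (x 4) (x 5), hT (x 1) (x 2) (x 3) (x 4) (x 5)]
    have h3 : G * S6 tab E (x 0) (x 1) (x 2) (x 3) (x 4) (x 5) ≤ C :=
      (Nat.mul_le_mul_left _ h2).trans hG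
    push_cast [Nat.cast_sub h3]
    ring
  simp only [h1] at hb
  rw [sum_add_distrib, sum_sub_distrib, sum_const, card_univ, Fintype.card_fun, Fintype.card_fin,
    nsmul_eq_mul, ← mul_sum, ← mul_sum] at hb
  have h4 : ∑ x : Fin 6 → V, ((S6 tab E (x 0) (x 1) (x 2) (x 3) (x 4) (x 5) : ℕ) : ℤ) =
      ((6 * (Fintype.card V * S5 tab E) : ℕ) : ℤ) := by
    rw [← sumS6, Nat.cast_sum]
  rw [h4, hC] at hb
  push_cast at hb
  have h5 : (6 * (G : ℤ) * ((Fintype.card V : ℤ) * (S5 tab E : ℤ))) ≤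
      (R : ℤ) * (Fintype.card V : ℤ) ^ 6 + (P : ℤ) *
        ∑ x : Fin 6 → V, (XM E 14 (x 0) (x 1) (x 2) (x 3) (x 4) (x 5) : ℤ) := by
    linarith
  exact_mod_cast h5

end

end Pool.Agent.U991.F5
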