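import Pool.Agent.U991.F5.Base

/-! The number of six-tuples of vertices which span 14 edges. -/

set_option autoImplicit false
set_option maxRecDepth 100000
set_option maxHeartbeats 4000000
open Finset
open scoped Classical

namespace Pool.Agent.U991.F5
open Pool.Agent.H122R2.N6 Pool.Agent.H37R3.Pen Pool.Agent.Y850.FA Pool.Agent.TH773.CL

section
variable {V : Type} {E : V → V → V → ℕ}

theorem k4b_le (hE : Sy E) (hK : NoK4 E) (a b c d : V) :
    E a b c + E a b d + E a c d + E b c d ≤ 3 := by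
  have h := hK a b c d
  have h1 := hE.b a b c
  have h2 := hE.b a b d
  have h3 := hE.b a c d
  have h4 := hE.b b c d
  unfold Bt at h1 h2 h3 h4
  by_contra hc
  have : E a b c = 1 ∧ E a b d = 1 ∧ E a c d = 1 ∧ E b c d = 1 := by omega
  rw [this.1, this.2.1, this.2.2.1, this.2.2.2] at h
  exact absurd h (by decide)

theorem cn_01 (hE : Sy E) (hz : ∀ a c, E a a c = 0) (hK : NoK4 E) (a c d e f : V) :
    cnt (E a a c) (E a a d) (E a c d) (E a c d) (E a a e) (E a c e) (E a c e) (E a d e) (E a d e) (E c d e) (E a a f) (E a c f) (E a c f) (E a d f) (E a d f) (E c d f) (E a e f) (E a e f) (E c e f) (E d e f) ≤ 12 := by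
  have f0 := hz a c
  have f1 := hz a d
  have f2 := hz a e
  have f3 := hz a f
  have k0 := k4b_le hE hK a c d e
  have k1 := k4b_le hE hK a c d f
  have k2 := k4b_le hE hK a c e f
  have k3 := k4b_le hE hK a d e f
  unfold cnt
  simp only [Nat.add_eq]
  omega

theorem cn_02 (hE : Sy E) (hz : ∀ a c, E a a c = 0) (hK : NoK4 E) (a b d e f : V) :
    cnt (E a b a) (E a b d) (E a a d) (E b a d) (E a b e) (E a a e) (E b a e) (E a d e) (E b d e) (E a d e) (E a b f) (E a a f) (E b a f) (E a d f) (E b d f) (E a d f) (E a e f) (E b e f) (E a e f) (E d e f) ≤ 12 := by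
  have f0 := (hE.h132 a a b).trans (hz a b)
  have f1 := hz a d
  have f2 := hE.h213 a b d
  have f3 := hz a e
  have f4 := hE.h213 a b e
  have f5 := hz a f
  have f6 := hE.h213 a b f
  have k0 := k4b_le hE hK a b d e
  have k1 := k4b_le hE hK a b d f
  have k2 := k4b_le hE hK a b e f
  have k3 := k4b_le hE hK a d e f
  unfold cnt
  simp only [Nat.add_eq]
  omega

theorem cn_03 (hE : Sy E) (hz : ∀ a c, E a a c = 0) (hK : NoK4 E) (a b c e f : V) :
    cnt (E a b c) (E a b a) (E a c a) (E b c a) (E a b e) (E a c e) (E b c e) (E a a e) (E b a e) (E c a e) (E a b f) (E a c f) (E b c f) (E a a f) (E b a f) (E c a f) (E a e f) (E b e f) (E c e f) (E a e f) ≤ 12 := by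
  have f0 := (hE.h132 a a b).trans (hz a b)
  have f1 := (hE.h132 a a c).trans (hz a c)
  have f2 := hE.h231 a b c
  have f3 := hz a e
  have f4 := hE.h213 a b e
  have f5 := hE.h213 a c e
  have f6 := hz a f
  have f7 := hE.h213 a b f
  have f8 := hE.h213 a c f
  have k0 := k4b_le hE hK a b c e
  have k1 := k4b_le hE hK a b c f
  have k2 := k4b_le hE hK a b e f
  have k3 := k4b_le hE hK a c e f
  unfold cnt
  simp only [Nat.add_eq]
  omega

theorem cn_04 (hE : Sy E) (hz : ∀ a c, E a a c = 0) (hK : NoK4 E) (a b c d f : V) :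
    cnt (E a b c) (E a b d) (E a c d) (E b c d) (E a b a) (E a c a) (E b c a) (E a d a) (E b d a) (E c d a) (E a b f) (E a c f) (E b c f) (E a d f) (E b d f) (E c d f) (E a a f) (E b a f) (E c a f) (E d a f) ≤ 12 := by
  have f0 := (hE.h132 a a b).trans (hz a b)
  have f1 := (hE.h132 a a c).trans (hz a c)
  have f2 := hE.h231 a b c
  have f3 := (hE.h132 a a d).trans (hz a d)
  have f4 := hE.h231 a b d
  have f5 := hE.h231 a c d
  have f6 := hz a f
  have f7 := hE.h213 a b f
  have f8 := hE.h213 a c f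
  have f9 := hE.h213 a d f
  have k0 := k4b_le hE hK a b c d
  have k1 := k4b_le hE hK a b c f
  have k2 := k4b_le hE hK a b d f
  have k3 := k4b_le hE hK a c d f
  unfold cnt
  simp only [Nat.add_eq]
  omega

theorem cn_05 (hE : Sy E) (hz : ∀ a c, E a a c = 0) (hK : NoK4 E) (a b c d e : V) :
    cnt (E a b c) (E a b d) (E a c d) (E b c d) (E a b e) (E a c e) (E b c e) (E a d e) (E b d e) (E c d e) (E a b a) (E a c a) (E b c a) (E a d a) (E b d a) (E c d a) (E a e a) (E b e a) (E c e a) (E d e a) ≤ 12 := by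
  have f0 := (hE.h132 a a b).trans (hz a b)
  have f1 := (hE.h132 a a c).trans (hz a c)
  have f2 := hE.h231 a b c
  have f3 := (hE.h132 a a d).trans (hz a d)
  have f4 := hE.h231 a b d
  have f5 := hE.h231 a c d
  have f6 := (hE.h132 a a e).trans (hz a e)
  have f7 := hE.h231 a b e
  have f8 := hE.h231 a c e
  have f9 := hE.h231 a d e
  have k0 := k4b_le hE hK a b c d
  have k1 := k4b_le hE hK a b c e
  have k2 := k4b_le hE hK a b d e
  have k3 := k4b_le hE hK a c d e
  unfold cnt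
  simp only [Nat.add_eq]
  omega

theorem cn_12 (hE : Sy E) (hz : ∀ a c, E a a c = 0) (hK : NoK4 E) (a b d e f : V) :
    cnt (E a b b) (E a b d) (E a b d) (E b b d) (E a b e) (E a b e) (E b b e) (E a d e) (E b d e) (E b d e) (E a b f) (E a b f) (E b b f) (E a d f) (E b d f) (E b d f) (E a e f) (E b e f) (E b e f) (E d e f) ≤ 12 := by
  have f0 := (hE.h231 a b b).symm.trans (hz b a)
  have f1 := hz b d
  have f2 := hz b e
  have f3 := hz b f
  have k0 := k4b_le hE hK a b d e
  have k1 := k4b_le hE hK a b d f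
  have k2 := k4b_le hE hK a b e f
  have k3 := k4b_le hE hK b d e f
  unfold cnt
  simp only [Nat.add_eq]
  omega

theorem cn_13 (hE : Sy E) (hz : ∀ a c, E a a c = 0) (hK : NoK4 E) (a b c e f : V) :
    cnt (E a b c) (E a b b) (E a c b) (E b c b) (E a b e) (E a c e) (E b c e) (E a b e) (E b b e) (E c b e) (E a b f) (E a c f) (E b c f) (E a b f) (E b b f) (E c b f) (E a e f) (E b e f) (E c e f) (E b e f) ≤ 12 := by
  have f0 := (hE.h231 a b b).symm.trans (hz b a)
  have f1 := hE.h132 a b c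
  have f2 := (hE.h132 b b c).trans (hz b c)
  have f3 := hz b e
  have f4 := hE.h213 b c e
  have f5 := hz b f
  have f6 := hE.h213 b c f
  have k0 := k4b_le hE hK a b c e
  have k1 := k4b_le hE hK a b c f
  have k2 := k4b_le hE hK a b e f
  have k3 := k4b_le hE hK b c e f
  unfold cnt
  simp only [Nat.add_eq]
  omega

theorem cn_14 (hE : Sy E) (hz : ∀ a c, E a a c = 0) (hK : NoK4 E) (a b c d f : V) :
    cnt (E a b c) (E a b d) (E a c d) (E b c d) (E a b b) (E a c b) (E b c b) (E a d b) (E b d b) (E c d b) (E a b f) (E a c f) (E b c f) (E a d f) (E b d f) (E c d f) (E a b f) (E b b f) (E c b f) (E d b f) ≤ 12 := by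
  have f0 := (hE.h231 a b b).symm.trans (hz b a)
  have f1 := hE.h132 a b c
  have f2 := (hE.h132 b b c).trans (hz b c)
  have f3 := hE.h132 a b d
  have f4 := (hE.h132 b b d).trans (hz b d)
  have f5 := hE.h231 b c d
  have f6 := hz b f
  have f7 := hE.h213 b c f
  have f8 := hE.h213 b d f
  have k0 := k4b_le hE hK a b c d
  have k1 := k4b_le hE hK a b c f
  have k2 := k4b_le hE hK a b d f
  have k3 := k4b_le hE hK b c d f
  unfold cnt
  simp only [Nat.add_eq]
  omega

theorem cn_15 (hE : Sy E) (hz : ∀ a c, E a a c = 0) (hK : NoK4 E) (a b c d e : V) :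
    cnt (E a b c) (E a b d) (E a c d) (E b c d) (E a b e) (E a c e) (E b c e) (E a d e) (E b d e) (E c d e) (E a b b) (E a c b) (E b c b) (E a d b) (E b d b) (E c d b) (E a e b) (E b e b) (E c e b) (E d e b) ≤ 12 := by
  have f0 := (hE.h231 a b b).symm.trans (hz b a)
  have f1 := hE.h132 a b c
  have f2 := (hE.h132 b b c).trans (hz b c)
  have f3 := hE.h132 a b d
  have f4 := (hE.h132 b b d).trans (hz b d)
  have f5 := hE.h231 b c d
  have f6 := hE.h132 a b e
  have f7 := (hE.h132 b b e).trans (hz b e)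
  have f8 := hE.h231 b c e
  have f9 := hE.h231 b d e
  have k0 := k4b_le hE hK a b c d
  have k1 := k4b_le hE hK a b c e
  have k2 := k4b_le hE hK a b d e
  have k3 := k4b_le hE hK b c d e
  unfold cnt
  simp only [Nat.add_eq]
  omega

theorem cn_23 (hE : Sy E) (hz : ∀ a c, E a a c = 0) (hK : NoK4 E) (a b c e f : V) :
    cnt (E a b c) (E a b c) (E a c c) (E b c c) (E a b e) (E a c e) (E b c e) (E a c e) (E b c e) (E c c e) (E a b f) (E a c f) (E b c f) (E a c f) (E b c f) (E c c f) (E a e f) (E b e f) (E c e f) (E c e f) ≤ 12 := by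
  have f0 := (hE.h231 a c c).symm.trans (hz c a)
  have f1 := (hE.h231 b c c).symm.trans (hz c b)
  have f2 := hz c e
  have f3 := hz c f
  have k0 := k4b_le hE hK a b c e
  have k1 := k4b_le hE hK a b c f
  have k2 := k4b_le hE hK a c e f
  have k3 := k4b_le hE hK b c e f
  unfold cnt
  simp only [Nat.add_eq]
  omega

theorem cn_24 (hE : Sy E) (hz : ∀ a c, E a a c = 0) (hK : NoK4 E) (a b c d f : V) :
    cnt (E a b c) (E a b d) (E a c d) (E b c d) (E a b c) (E a c c) (E b c c) (E a d c) (E b d c) (E c d c) (E a b f) (E a c f) (E b c f) (E a d f) (E b d f) (E c d f) (E a c f) (E b c f) (E c c f) (E d c f) ≤ 12 := by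
  have f0 := (hE.h231 a c c).symm.trans (hz c a)
  have f1 := (hE.h231 b c c).symm.trans (hz c b)
  have f2 := hE.h132 a c d
  have f3 := hE.h132 b c d
  have f4 := (hE.h132 c c d).trans (hz c d)
  have f5 := hz c f
  have f6 := hE.h213 c d f
  have k0 := k4b_le hE hK a b c d
  have k1 := k4b_le hE hK a b c f
  have k2 := k4b_le hE hK a c d f
  have k3 := k4b_le hE hK b c d f
  unfold cnt
  simp only [Nat.add_eq]
  omega

theorem cn_25 (hE : Sy E) (hz : ∀ a c, E a a c = 0) (hK : NoK4 E) (a b c d e : V) :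
    cnt (E a b c) (E a b d) (E a c d) (E b c d) (E a b e) (E a c e) (E b c e) (E a d e) (E b d e) (E c d e) (E a b c) (E a c c) (E b c c) (E a d c) (E b d c) (E c d c) (E a e c) (E b e c) (E c e c) (E d e c) ≤ 12 := by
  have f0 := (hE.h231 a c c).symm.trans (hz c a)
  have f1 := (hE.h231 b c c).symm.trans (hz c b)
  have f2 := hE.h132 a c d
  have f3 := hE.h132 b c d
  have f4 := (hE.h132 c c d).trans (hz c d)
  have f5 := hE.h132 a c e
  have f6 := hE.h132 b c e
  have f7 := (hE.h132 c c e).trans (hz c e)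
  have f8 := hE.h231 c d e
  have k0 := k4b_le hE hK a b c d
  have k1 := k4b_le hE hK a b c e
  have k2 := k4b_le hE hK a c d e
  have k3 := k4b_le hE hK b c d e
  unfold cnt
  simp only [Nat.add_eq]
  omega

theorem cn_34 (hE : Sy E) (hz : ∀ a c, E a a c = 0) (hK : NoK4 E) (a b c d f : V) :
    cnt (E a b c) (E a b d) (E a c d) (E b c d) (E a b d) (E a c d) (E b c d) (E a d d) (E b d d) (E c d d) (E a b f) (E a c f) (E b c f) (E a d f) (E b d f) (E c d f) (E a d f) (E b d f) (E c d f) (E d d f) ≤ 12 := by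
  have f0 := (hE.h231 a d d).symm.trans (hz d a)
  have f1 := (hE.h231 b d d).symm.trans (hz d b)
  have f2 := (hE.h231 c d d).symm.trans (hz d c)
  have f3 := hz d f
  have k0 := k4b_le hE hK a b c d
  have k1 := k4b_le hE hK a b d f
  have k2 := k4b_le hE hK a c d f
  have k3 := k4b_le hE hK b c d f
  unfold cnt
  simp only [Nat.add_eq]
  omega

theorem cn_35 (hE : Sy E) (hz : ∀ a c, E a a c = 0) (hK : NoK4 E) (a b c d e : V) :
    cnt (E a b c) (E a b d) (E a c d) (E b c d) (E a b e) (E a c e) (E b c e) (E a d e) (E b d e) (E c d e) (E a b d) (E a c d) (E b c d) (E a d d) (E b d d) (E c d d) (E a e d) (E b e d) (E c e d) (E d e d) ≤ 12 := by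
  have f0 := (hE.h231 a d d).symm.trans (hz d a)
  have f1 := (hE.h231 b d d).symm.trans (hz d b)
  have f2 := (hE.h231 c d d).symm.trans (hz d c)
  have f3 := hE.h132 a d e
  have f4 := hE.h132 b d e
  have f5 := hE.h132 c d e
  have f6 := (hE.h132 d d e).trans (hz d e)
  have k0 := k4b_le hE hK a b c d
  have k1 := k4b_le hE hK a b d e
  have k2 := k4b_le hE hK a c d e
  have k3 := k4b_le hE hK b c d e
  unfold cnt
  simp only [Nat.add_eq]
  omega

theorem cn_45 (hE : Sy E) (hz : ∀ a c, E a a c = 0) (hK : NoK4 E) (a b c d e : V) :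
    cnt (E a b c) (E a b d) (E a c d) (E b c d) (E a b e) (E a c e) (E b c e) (E a d e) (E b d e) (E c d e) (E a b e) (E a c e) (E b c e) (E a d e) (E b d e) (E c d e) (E a e e) (E b e e) (E c e e) (E d e e) ≤ 12 := by
  have f0 := (hE.h231 a e e).symm.trans (hz e a)
  have f1 := (hE.h231 b e e).symm.trans (hz e b)
  have f2 := (hE.h231 c e e).symm.trans (hz e c)
  have f3 := (hE.h231 d e e).symm.trans (hz e d)
  have k0 := k4b_le hE hK a b c e
  have k1 := k4b_le hE hK a b d e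
  have k2 := k4b_le hE hK a c d e
  have k3 := k4b_le hE hK b c d e
  unfold cnt
  simp only [Nat.add_eq]
  omega
theorem cn_lt (hE : Sy E) (hz : ∀ a c, E a a c = 0) (hK : NoK4 E) (x : Fin 6 → V) (i j : Fin 6)
    (hij : i < j) (h : x i = x j) :
    cnt (E (x 0) (x 1) (x 2)) (E (x 0) (x 1) (x 3)) (E (x 0) (x 2) (x 3)) (E (x 1) (x 2) (x 3)) (E (x 0) (x 1) (x 4)) (E (x 0) (x 2) (x 4)) (E (x 1) (x 2) (x 4)) (E (x 0) (x 3) (x 4)) (E (x 1) (x 3) (x 4)) (E (x 2) (x 3) (x 4)) (E (x 0) (x 1) (x 5)) (E (x 0) (x 2) (x 5)) (E (x 1) (x 2) (x 5)) (E (x 0) (x 3) (x 5)) (E (x 1) (x 3) (x 5)) (E (x 2) (x 3) (x 5)) (E (x 0) (x 4) (x 5)) (E (x 1) (x 4) (x 5)) (E (x 2) (x 4) (x 5)) (E (x 3) (x 4) (x 5)) ≤ 12 := by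
  have key : ∀ p q : Fin 6, p < q → (p, q) ∈ ([(0, 1), (0, 2), (0, 3), (0, 4), (0, 5), (1, 2), (1, 3), (1, 4), (1, 5), (2, 3), (2, 4), (2, 5), (3, 4), (3, 5), (4, 5)] : List (Fin 6 × Fin 6)) := by decide
  have hm := key i j hij
  simp only [List.mem_cons, Prod.mk.injEq, List.not_mem_nil, or_false] at hm
  rcases hm with ⟨rfl, rfl⟩ | ⟨rfl, rfl⟩ | ⟨rfl, rfl⟩ | ⟨rfl, rfl⟩ | ⟨rfl, rfl⟩ | ⟨rfl, rfl⟩ | ⟨rfl, rfl⟩ | ⟨rfl, rfl⟩ | ⟨rfl, rfl⟩ | ⟨rfl, rfl⟩ | ⟨rfl, rfl⟩ | ⟨rfl, rfl⟩ | ⟨rfl, rfl⟩ | ⟨rfl, rfl⟩ | ⟨rfl, rfl⟩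
  · rw [← h]; exact cn_01 hE hz hK (x 0) (x 2) (x 3) (x 4) (x 5)
  · rw [← h]; exact cn_02 hE hz hK (x 0) (x 1) (x 3) (x 4) (x 5)
  · rw [← h]; exact cn_03 hE hz hK (x 0) (x 1) (x 2) (x 4) (x 5)
  · rw [← h]; exact cn_04 hE hz hK (x 0) (x 1) (x 2) (x 3) (x 5)
  · rw [← h]; exact cn_05 hE hz hK (x 0) (x 1) (x 2) (x 3) (x 4)
  · rw [← h]; exact cn_12 hE hz hK (x 0) (x 1) (x 3) (x 4) (x 5)
  · rw [← h]; exact cn_13 hE hz hK (x 0) (x 1) (x 2) (x 4) (x 5)
  · rw [← h]; exact cn_14 hE hz hK (x 0) (x 1) (x 2) (x 3) (x 5)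
  · rw [← h]; exact cn_15 hE hz hK (x 0) (x 1) (x 2) (x 3) (x 4)
  · rw [← h]; exact cn_23 hE hz hK (x 0) (x 1) (x 2) (x 4) (x 5)
  · rw [← h]; exact cn_24 hE hz hK (x 0) (x 1) (x 2) (x 3) (x 5)
  · rw [← h]; exact cn_25 hE hz hK (x 0) (x 1) (x 2) (x 3) (x 4)
  · rw [← h]; exact cn_34 hE hz hK (x 0) (x 1) (x 2) (x 3) (x 5)
  · rw [← h]; exact cn_35 hE hz hK (x 0) (x 1) (x 2) (x 3) (x 4)
  · rw [← h]; exact cn_45 hE hz hK (x 0) (x 1) (x 2) (x 3) (x 4)

end

section
variable {n : ℕ} {H : Finset (Finset (Fin n))}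

theorem XM_inj (hH : ∀ e ∈ H, e.card = 3) (hK : NoK4 (tri H)) {x : Fin 6 → Fin n}
    (h : XM (tri H) 14 (x 0) (x 1) (x 2) (x 3) (x 4) (x 5) ≠ 0) : Function.Injective x := by
  have hz : ∀ a c, tri H a a c = 0 := fun a c => tri_zero hH (Or.inl rfl)
  have key : ∀ i j : Fin 6, i < j → x i ≠ x j := by
    intro i j hij hx
    have h1 := cn_lt (tri_sy H) hz hK x i j hij hx
    apply h
    unfold XM
    rw [if_neg]
    omega
  intro i j hij
  rcases lt_trichotomy i j with hl | hl | hl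
  · exact absurd hij (key i j hl)
  · exact hl
  · exact absurd hij.symm (key j i hl)

theorem fiber_le (S : Finset (Fin n)) (hS : S.card = 6) :
    ((univ : Finset (Fin 6 → Fin n)).filter fun x => Function.Injective x ∧ univ.image x = S).card
      ≤ 720 := by
  have h1 : (univ : Finset (Fin 6 ↪ S)).card = 720 := by
    rw [card_univ, Fintype.card_embedding_eq, Fintype.card_fin, Fintype.card_coe, hS]
    decide
  rw [← h1]
  refine (card_le_card (t := (univ : Finset (Fin 6 ↪ S)).image fun e i => ((e i : S) : Fin n)) ?_).trans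
    card_image_le
  intro x hx
  obtain ⟨-, hi, hs⟩ := mem_filter.mp hx
  rw [mem_image]
  have hm : ∀ i, x i ∈ S := fun i => by rw [← hs]; exact mem_image_of_mem _ (mem_univ _)
  refine ⟨⟨fun i => ⟨x i, hm i⟩, fun i j hij => hi (congrArg Subtype.val hij)⟩, mem_univ _, rfl⟩

/-- the six-tuples with 14 edges -/
theorem sum_XM_le (hH : ∀ e ∈ H, e.card = 3) (hK : NoK4 (tri H)) :
    ∑ x : Fin 6 → Fin n, XM (tri H) 14 (x 0) (x 1) (x 2) (x 3) (x 4) (x 5) ≤
      720 * (((univ : Finset (Fin n)).powersetCard 6).filter fun S =>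
        (H.filter fun e => e ⊆ S).card = 14).card := by
  set TA := ((univ : Finset (Fin n)).powersetCard 6).filter fun S =>
      (H.filter fun e => e ⊆ S).card = 14 with hTA
  have h1 : ∑ x : Fin 6 → Fin n, XM (tri H) 14 (x 0) (x 1) (x 2) (x 3) (x 4) (x 5) ≤
      ((univ : Finset (Fin 6 → Fin n)).filter fun x => Function.Injective x ∧
        univ.image x ∈ TA).card := by
    rw [card_filter]
    refine sum_le_sum fun x _ => ?_
    by_cases h0 : XM (tri H) 14 (x 0) (x 1) (x 2) (x 3) (x 4) (x 5) = 0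
    · rw [h0]; exact Nat.zero_le _
    · have hx := XM_inj hH hK h0
      have hc : (H.filter fun e => e ⊆ univ.image x).card = 14 := by
        rw [span6 hH hx]
        unfold XM at h0
        by_contra hne
        apply h0
        rw [if_neg]
        intro hcn
        apply hne
        unfold cnt at hcn
        simp only [Nat.add_eq] at hcn
        unfold sp6
        exact hcn
      have h6 : (univ.image x).card = 6 := by
        rw [card_image_of_injective _ hx, card_univ, Fintype.card_fin]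
      rw [if_pos ⟨hx, by rw [hTA]; exact mem_filter.mpr ⟨mem_powersetCard.mpr ⟨subset_univ _, h6⟩, hc⟩⟩]
      unfold XM
      split_ifs <;> omega
  refine h1.trans ?_
  have hmap : ∀ x ∈ (univ : Finset (Fin 6 → Fin n)).filter (fun x => Function.Injective x ∧
      univ.image x ∈ TA), univ.image x ∈ TA := fun x hx => (mem_filter.mp hx).2.2
  rw [card_eq_sum_card_fiberwise hmap, mul_comm, ← smul_eq_mul, ← sum_const]
  refine sum_le_sum fun S hS => ?_
  have hS6 : S.card = 6 := (mem_powersetCard.mp (mem_filter.mp hS).1).2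
  refine le_trans (card_le_card ?_) (fiber_le S hS6)
  intro x hx
  obtain ⟨h2, h3⟩ := mem_filter.mp hx
  exact mem_filter.mpr ⟨mem_univ _, (mem_filter.mp h2).2.1, h3⟩

end
end Pool.Agent.U991.F5
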