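import Pool.Agent.R85.GT.Trans
import Pool.Agent.U991.F5.Cnt14

/-! Homomorphism counts of the 3-graphs on five vertices: upper bounds from tables, and the counts for
Turán's construction. -/

set_option autoImplicit false
set_option maxRecDepth 100000
set_option maxHeartbeats 4000000
open Finset

namespace Pool.Agent.U991.F5
open Pool.Agent.H122R2.N6 Pool.Agent.Y580.FL Pool.Agent.R85.GT
open Pool.Agent.TH773.ST (Rf Rf_sy mem_turan)

/-- the entries of a packed list -/
def el (L k : ℕ) : ℕ := Nat.mod (Nat.shiftRight L (Nat.mul 10 k)) 1024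

/-- every entry of the packed list has the representative `r` -/
def chkO (r L n : ℕ) : Bool := nall n fun k =>
  and (Nat.beq (cd5 (bt (el L k) 0) (bt (el L k) 1) (bt (el L k) 2) (bt (el L k) 3) (bt (el L k) 4) (bt (el L k) 5) (bt (el L k) 6) (bt (el L k) 7) (bt (el L k) 8) (bt (el L k) 9)) (el L k))
    (Nat.beq (ends 7 (bt (el L k) 0) (bt (el L k) 1) (bt (el L k) 2) (bt (el L k) 3) (bt (el L k) 4) (bt (el L k) 5) (bt (el L k) 6) (bt (el L k) 7) (bt (el L k) 8) (bt (el L k) 9)) r)

/-- the table is a combination of two lists of subgraph indicators -/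
def chkT (tab : ℕ → ℕ) (α L1 n1 β L2 n2 : ℕ) : Bool := B2 fun b012 => B2 fun b013 => B2 fun b023 => B2 fun b123 => B2 fun b014 => B2 fun b024 => B2 fun b124 => B2 fun b034 => B2 fun b134 => B2 fun b234 =>
  Nat.beq (tab (cd5 b012 b013 b023 b123 b014 b024 b124 b034 b134 b234))
    (Nat.add (Nat.mul α (nsum n1 fun k => sbn (el L1 k) (cd5 b012 b013 b023 b123 b014 b024 b124 b034 b134 b234)))
      (Nat.mul β (nsum n2 fun k => sbn (el L2 k) (cd5 b012 b013 b023 b123 b014 b024 b124 b034 b134 b234))))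

section
variable {V : Type} [Fintype V] {E : V → V → V → ℕ}

theorem chkO_NF (hE : Sy E) {r L n : ℕ}
    (h : chkO r L n = true) {k : ℕ} (hk : k < n) : NF E (el L k) = NF E r := by
  have h1 := nall_true h k hk
  rw [Bool.and_eq_true] at h1
  have h2 := Nat.eq_of_beq_eq_true h1.1
  have h3 := Nat.eq_of_beq_eq_true h1.2
  have h4 := ends_NF hE 7 (bt_Bt (el L k) 0) (bt_Bt (el L k) 1) (bt_Bt (el L k) 2) (bt_Bt (el L k) 3) (bt_Bt (el L k) 4) (bt_Bt (el L k) 5) (bt_Bt (el L k) 6) (bt_Bt (el L k) 7) (bt_Bt (el L k) 8) (bt_Bt (el L k) 9)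
  rw [h3, h2] at h4
  exact h4.symm

theorem sum_list (hE : Sy E) {r L n : ℕ} (h : chkO r L n = true) :
    ∑ x : Fin 5 → V, ∑ k ∈ range n, TE (sbn (el L k)) E (x 0) (x 1) (x 2) (x 3) (x 4) =
      n * NF E r := by
  rw [sum_comm]
  have : ∀ k ∈ range n, ∑ x : Fin 5 → V, TE (sbn (el L k)) E (x 0) (x 1) (x 2) (x 3) (x 4) =
      NF E r := fun k hk => chkO_NF hE h (mem_range.mp hk)
  rw [sum_congr rfl this, sum_const, card_range, smul_eq_mul]

theorem S5_eq (hE : Sy E) {tab : ℕ → ℕ} {α L1 n1 r1 β L2 n2 r2 : ℕ}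
    (h1 : chkO r1 L1 n1 = true) (h2 : chkO r2 L2 n2 = true)
    (hT : chkT tab α L1 n1 β L2 n2 = true) :
    S5 tab E = α * (n1 * NF E r1) + β * (n2 * NF E r2) := by
  rw [← sum_list hE h1, ← sum_list hE h2, mul_sum, mul_sum, ← sum_add_distrib]
  unfold S5
  refine sum_congr rfl fun x _ => ?_
  have h3 := (B2_true (B2_true (B2_true (B2_true (B2_true (B2_true (B2_true (B2_true (B2_true (B2_true hT (hE.b (x 0) (x 1) (x 2))) (hE.b (x 0) (x 1) (x 3))) (hE.b (x 0) (x 2) (x 3))) (hE.b (x 1) (x 2) (x 3))) (hE.b (x 0) (x 1) (x 4))) (hE.b (x 0) (x 2) (x 4))) (hE.b (x 1) (x 2) (x 4))) (hE.b (x 0) (x 3) (x 4))) (hE.b (x 1) (x 3) (x 4))) (hE.b (x 2) (x 3) (x 4)))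
  have h4 := Nat.eq_of_beq_eq_true h3
  rw [nsum_eq, nsum_eq] at h4
  exact h4

end

/-- maps of the five vertices sending every triple of `F` to a triple of `H` -/
def homs {n : ℕ} (F : Finset (Finset (Fin 5))) (H : Finset (Finset (Fin n))) : ℕ :=
  (univ.filter fun x : Fin 5 → Fin n => ∀ e ∈ F, e.image x ∈ H).card

/-- maps of the five vertices to the three parts sending every triple of `F` to a triple of the
construction -/
def cols (F : Finset (Finset (Fin 5))) : ℕ :=
  (univ.filter fun c : Fin 5 → Fin 3 => ∀ e ∈ F, e ∈ Pool.Agent.TH773.Turan34.turan c).card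

theorem tri_eq {n : ℕ} (H : Finset (Finset (Fin n))) (a b c : Fin n) :
    tri H a b c = if ({a, b, c} : Finset (Fin n)) ∈ H then 1 else 0 := by
  unfold tri
  have e : (@insert (Fin n) (Finset (Fin n)) (@Finset.instInsert (Fin n) fun a b => Classical.propDecidable (a = b)) a
      (@insert (Fin n) (Finset (Fin n)) (@Finset.instInsert (Fin n) fun a b => Classical.propDecidable (a = b)) b {c})) = ({a, b, c} : Finset (Fin n)) := by
    ext t
    simp only [mem_insert, mem_singleton]
  rw [e]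
  by_cases h : ({a, b, c} : Finset (Fin n)) ∈ H
  · rw [if_pos h, if_pos h]
  · rw [if_neg h, if_neg h]

theorem tri_img {n : ℕ} (H : Finset (Finset (Fin n))) (x : Fin 5 → Fin n) (i j k : Fin 5) :
    tri H (x i) (x j) (x k) = if ({i, j, k} : Finset (Fin 5)).image x ∈ H then 1 else 0 := by
  rw [tri_eq, image_insert, image_insert, image_singleton]

theorem homs_eq {n : ℕ} {F : Finset (Finset (Fin 5))} (h3 : ∀ e ∈ F, e.card = 3)
    (H : Finset (Finset (Fin n))) : homs F H = NF (tri H) (code F) :=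
  (NF_eq_card (tri_sy H) h3 (fun x e => e.image x ∈ H) (fun x => tri_img H x _ _ _)
    (fun x => tri_img H x _ _ _) (fun x => tri_img H x _ _ _) (fun x => tri_img H x _ _ _)
    (fun x => tri_img H x _ _ _) (fun x => tri_img H x _ _ _) (fun x => tri_img H x _ _ _)
    (fun x => tri_img H x _ _ _) (fun x => tri_img H x _ _ _) (fun x => tri_img H x _ _ _)).symm

theorem rf_if (c : Fin 5 → Fin 3) {i j k : Fin 5} (h1 : i ≠ j) (h2 : i ≠ k) (h3 : j ≠ k) :
    Rf (c i) (c j) (c k) =
      if ({i, j, k} : Finset (Fin 5)) ∈ Pool.Agent.TH773.Turan34.turan c then 1 else 0 := by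
  by_cases h : ({i, j, k} : Finset (Fin 5)) ∈ Pool.Agent.TH773.Turan34.turan c
  · rw [if_pos h]
    exact (mem_turan h1 h2 h3).mp h
  · rw [if_neg h]
    rcases Rf_sy.b (c i) (c j) (c k) with h4 | h4
    · exact h4
    · exact absurd ((mem_turan h1 h2 h3).mpr h4) h

theorem cols_eq {F : Finset (Finset (Fin 5))} (h3 : ∀ e ∈ F, e.card = 3) :
    cols F = NF Rf (code F) :=
  (NF_eq_card Rf_sy h3 (fun c e => e ∈ Pool.Agent.TH773.Turan34.turan c)
    (fun x => rf_if x (by decide) (by decide) (by decide))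
    (fun x => rf_if x (by decide) (by decide) (by decide))
    (fun x => rf_if x (by decide) (by decide) (by decide))
    (fun x => rf_if x (by decide) (by decide) (by decide))
    (fun x => rf_if x (by decide) (by decide) (by decide))
    (fun x => rf_if x (by decide) (by decide) (by decide))
    (fun x => rf_if x (by decide) (by decide) (by decide))
    (fun x => rf_if x (by decide) (by decide) (by decide))
    (fun x => rf_if x (by decide) (by decide) (by decide))
    (fun x => rf_if x (by decide) (by decide) (by decide))).symm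

/-- the division of `3 m` vertices into three parts of size `m` -/
def g0 (m : ℕ) (v : Fin (3 * m)) : Fin 3 := (finProdFinEquiv.symm v).1

theorem g0_inj (m : ℕ) (p : Fin 3) :
    Function.Injective fun k : Fin m => (finProdFinEquiv (p, k) : Fin (3 * m)) := by
  intro a b hab
  have h := finProdFinEquiv.injective hab
  exact congrArg Prod.snd h

theorem g0_card (m : ℕ) (p : Fin 3) : (univ.filter fun v => g0 m v = p).card = m := by
  have h : (univ.filter fun v => g0 m v = p) =
      (univ : Finset (Fin m)).image fun k : Fin m => (finProdFinEquiv (p, k) : Fin (3 * m)) := by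
    ext v
    simp only [mem_filter, mem_univ, true_and, mem_image]
    constructor
    · intro hv
      refine ⟨(finProdFinEquiv.symm v).2, ?_⟩
      rw [← hv]
      exact finProdFinEquiv.apply_symm_apply v
    · rintro ⟨k, rfl⟩
      unfold g0
      rw [Equiv.symm_apply_apply]
  rw [h, card_image_of_injective _ (g0_inj m p), card_univ, Fintype.card_fin]

theorem fiber5 (m : ℕ) (c : Fin 5 → Fin 3) :
    (univ.filter fun x : Fin 5 → Fin (3 * m) => (fun i => g0 m (x i)) = c).card = m ^ 5 := by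
  have h : (univ.filter fun x : Fin 5 → Fin (3 * m) => (fun i => g0 m (x i)) = c) =
      Fintype.piFinset fun i => univ.filter fun v => g0 m v = c i := by
    ext x
    rw [mem_filter, Fintype.mem_piFinset]
    simp only [mem_univ, true_and, mem_filter]
    exact ⟨fun hx i => congrFun hx i, fun hx => funext hx⟩
  rw [h, Fintype.card_piFinset]
  simp only [g0_card, prod_const, card_univ, Fintype.card_fin]

theorem NF_col (m f : ℕ) :
    NF (fun a b c : Fin (3 * m) => Rf (g0 m a) (g0 m b) (g0 m c)) f = m ^ 5 * NF Rf f := by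
  unfold NF S5
  have h1 : ∀ x : Fin 5 → Fin (3 * m),
      TE (sbn f) (fun a b c : Fin (3 * m) => Rf (g0 m a) (g0 m b) (g0 m c))
        (x 0) (x 1) (x 2) (x 3) (x 4) =
      (fun c : Fin 5 → Fin 3 => TE (sbn f) Rf (c 0) (c 1) (c 2) (c 3) (c 4))
        (fun i => g0 m (x i)) := fun x => rfl
  rw [sum_congr rfl fun x _ => h1 x, ← sum_fiberwise (s := univ)
    (g := fun x : Fin 5 → Fin (3 * m) => fun i => g0 m (x i)), mul_sum]
  refine sum_congr rfl fun c _ => ?_
  rw [sum_congr rfl (g := fun _ => (fun c : Fin 5 → Fin 3 => TE (sbn f) Rf (c 0) (c 1) (c 2) (c 3) (c 4)) c)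
    (fun x hx => by rw [(mem_filter.mp hx).2]), sum_const, fiber5, smul_eq_mul]

theorem sbn_le (f m : ℕ) : sbn f m ≤ 1 := by
  unfold sbn
  cases Nat.beq (Nat.land f m) f <;> simp

theorem poly (n : ℕ) : n ^ 5 ≤ n.descFactorial 5 + 10 * n ^ 4 := by
  rcases lt_or_ge n 4 with h | h
  · interval_cases n <;> decide
  · obtain ⟨k, rfl⟩ := Nat.exists_eq_add_of_le h
    have e : (4 + k).descFactorial 5 = k * ((k + 1) * ((k + 2) * ((k + 3) * (k + 4)))) := by
      simp only [Nat.descFactorial_succ, Nat.descFactorial_zero, mul_one]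
      have a0 : 4 + k - 0 = k + 4 := by omega
      have a1 : 4 + k - 1 = k + 3 := by omega
      have a2 : 4 + k - 2 = k + 2 := by omega
      have a3 : 4 + k - 3 = k + 1 := by omega
      have a4 : 4 + k - 4 = k := by omega
      rw [a0, a1, a2, a3, a4]
    rw [e]
    have : k * ((k + 1) * ((k + 2) * ((k + 3) * (k + 4)))) + 10 * (4 + k) ^ 4 =
        (4 + k) ^ 5 + (k + 4) * (35 * k ^ 2 + 230 * k + 384) := by ring
    rw [this]
    exact Nat.le_add_right _ _

theorem noninj (n : ℕ) :
    (univ.filter fun x : Fin 5 → Fin n => ¬ Function.Injective x).card ≤ 10 * n ^ 4 := by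
  have h1 : (univ.filter fun x : Fin 5 → Fin n => Function.Injective x).card
      = n.descFactorial 5 := by
    rw [← Fintype.card_subtype, Fintype.card_congr (Equiv.subtypeInjectiveEquivEmbedding (Fin 5) (Fin n)),
      Fintype.card_embedding_eq, Fintype.card_fin, Fintype.card_fin]
  have h2 : (univ.filter fun x : Fin 5 → Fin n => Function.Injective x).card +
      (univ.filter fun x : Fin 5 → Fin n => ¬ Function.Injective x).card = n ^ 5 := by
    rw [card_filter_add_card_filter_not, card_univ, Fintype.card_fun, Fintype.card_fin,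
      Fintype.card_fin]
  have := poly n
  omega

theorem NF_turan (m f : ℕ) : m ^ 5 * NF Rf f ≤
    NF (tri (Pool.Agent.TH773.Turan34.turan (g0 m))) f + 810 * m ^ 4 := by
  rw [← NF_col]
  have h := noninj (3 * m)
  have h1 : NF (fun a b c : Fin (3 * m) => Rf (g0 m a) (g0 m b) (g0 m c)) f
      ≤ NF (tri (Pool.Agent.TH773.Turan34.turan (g0 m))) f +
        (univ.filter fun x : Fin 5 → Fin (3 * m) => ¬ Function.Injective x).card := by
    rw [card_filter]
    unfold NF S5
    rw [← sum_add_distrib]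
    refine sum_le_sum fun x _ => ?_
    by_cases hi : Function.Injective x
    · have ne : ∀ i j : Fin 5, i ≠ j → x i ≠ x j := fun i j hij he => hij (hi he)
      have e : ∀ i j k : Fin 5, i ≠ j → i ≠ k → j ≠ k →
          tri (Pool.Agent.TH773.Turan34.turan (g0 m)) (x i) (x j) (x k) =
            Rf (g0 m (x i)) (g0 m (x j)) (g0 m (x k)) :=
        fun i j k hij hik hjk => Pool.Agent.TH773.CL.tri_turan (ne i j hij) (ne i k hik) (ne j k hjk)
      unfold TE
      rw [e 0 1 2 (by decide) (by decide) (by decide), e 0 1 3 (by decide) (by decide) (by decide),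
        e 0 2 3 (by decide) (by decide) (by decide), e 1 2 3 (by decide) (by decide) (by decide),
        e 0 1 4 (by decide) (by decide) (by decide), e 0 2 4 (by decide) (by decide) (by decide),
        e 1 2 4 (by decide) (by decide) (by decide), e 0 3 4 (by decide) (by decide) (by decide),
        e 1 3 4 (by decide) (by decide) (by decide), e 2 3 4 (by decide) (by decide) (by decide)]
      exact Nat.le_add_right _ _
    · rw [if_pos hi]
      exact (sbn_le _ _).trans (Nat.le_add_left _ _)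
  have h2 : 10 * (3 * m) ^ 4 = 810 * m ^ 4 := by ring
  omega

theorem homs_turan {F : Finset (Finset (Fin 5))} (h3 : ∀ e ∈ F, e.card = 3) (m : ℕ) :
    cols F * m ^ 5 ≤ homs F (Pool.Agent.TH773.Turan34.turan (g0 m)) + 810 * m ^ 4 := by
  rw [homs_eq h3, cols_eq h3, mul_comm]
  exact NF_turan m _

/-- relabelling -/
theorem homs_rep {n r : ℕ} {F : Finset (Finset (Fin 5))} (h3 : ∀ e ∈ F, e.card = 3)
    (H : Finset (Finset (Fin n)))
    (h : ends 7 (fb F {0,1,2}) (fb F {0,1,3}) (fb F {0,2,3}) (fb F {1,2,3}) (fb F {0,1,4}) (fb F {0,2,4}) (fb F {1,2,4}) (fb F {0,3,4}) (fb F {1,3,4}) (fb F {2,3,4}) = r) :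
    homs F H = NF (tri H) r := by
  have n1 := ends_NF (tri_sy H) 7 (fb_Bt F {0,1,2}) (fb_Bt F {0,1,3}) (fb_Bt F {0,2,3}) (fb_Bt F {1,2,3}) (fb_Bt F {0,1,4}) (fb_Bt F {0,2,4}) (fb_Bt F {1,2,4}) (fb_Bt F {0,3,4}) (fb_Bt F {1,3,4}) (fb_Bt F {2,3,4})
  rw [h] at n1
  exact (homs_eq h3 H).trans n1.symm

theorem cols_rep {r : ℕ} {F : Finset (Finset (Fin 5))} (h3 : ∀ e ∈ F, e.card = 3)
    (h : ends 7 (fb F {0,1,2}) (fb F {0,1,3}) (fb F {0,2,3}) (fb F {1,2,3}) (fb F {0,1,4}) (fb F {0,2,4}) (fb F {1,2,4}) (fb F {0,3,4}) (fb F {1,3,4}) (fb F {2,3,4}) = r) :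
    cols F = NF Rf r := by
  have n1 := ends_NF Rf_sy 7 (fb_Bt F {0,1,2}) (fb_Bt F {0,1,3}) (fb_Bt F {0,2,3}) (fb_Bt F {1,2,3}) (fb_Bt F {0,1,4}) (fb_Bt F {0,2,4}) (fb_Bt F {1,2,4}) (fb_Bt F {0,3,4}) (fb_Bt F {1,3,4}) (fb_Bt F {2,3,4})
  rw [h] at n1
  exact (cols_eq h3).trans n1.symm

end Pool.Agent.U991.F5
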