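import Pool.Agent.U991.F5.Hom
import Pool.Agent.U991.F5.C54.Fin
import Pool.Agent.U991.F5.C62.Fin
import Pool.Agent.U991.F5.C126.Fin

/-! The bounds for the three 3-graphs on five vertices. -/

set_option autoImplicit false
set_option maxRecDepth 100000
set_option maxHeartbeats 4000000
open Finset

namespace Pool.Agent.U991.F5
open Pool.Agent.H122R2.N6 Pool.Agent.Y580.FL Pool.Agent.R85.GT
open scoped Classical

def L54 : ℕ := 0x781e0b42d0cc330781e0cc330b42d0b42d0cc330781e0cc330b42d0781e06318ca2a8ac1b066318cc1b06a2a8aa2a8ac1b066318cc1b06a2a8a6318c1b06c8a629916451b06c916458a6298a629916451b06c916458a6291b06c1685a4651950d431685a50d43465194651950d431685a50d43465191685a0d8362549528ca30d83628ca3254952549528ca30d83628ca3254950d836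

theorem O54 : chkO 553 L54 120 = true := by decide +kernel
theorem T54 : chkT C54.tab 1 L54 120 0 L54 120 = true := by decide +kernel

theorem step54 {n : ℕ} {H : Finset (Finset (Fin n))} (hH : ∀ e ∈ H, e.card = 3)
    (hK : NoK4 (tri H)) :
    486 * (n * NF (tri H) 553) ≤ 77 * n ^ 6 + 5832 *
      (((univ : Finset (Fin n)).powersetCard 6).filter fun S =>
        (H.filter fun e => e ⊆ S).card = 14).card := by
  have h1 := C54.main (tri_sy H) hK
  rw [S5_eq (tri_sy H) O54 O54 T54, Fintype.card_fin] at h1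
  have h2 := sum_XM_le hH hK
  have e : n * (1 * (120 * NF (tri H) 553) + 0 * (120 * NF (tri H) 553)) = 120 * (n * NF (tri H) 553) := by
    ring
  rw [e] at h1
  generalize n * NF (tri H) 553 = x at h1 ⊢
  generalize n ^ 6 = A at h1 ⊢
  generalize (∑ x : Fin 6 → Fin n, Pool.Agent.Y850.FA.XM (tri H) 14 (x 0) (x 1) (x 2) (x 3) (x 4) (x 5)) = X at h1 h2
  generalize (((univ : Finset (Fin n)).powersetCard 6).filter fun S =>
        (H.filter fun e => e ⊆ S).card = 14).card = N at h2 ⊢
  omega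

def L62 : ℕ := 0x7a1e4b62d2cd3327a1e4ce331b52d1b62d2ce331789e1cd332b52d1789e1731acb2a9ac9b16731acd1b07aaa8bb2a9ad1b076718dc9b16aaa8b6718d5b0ecca639b16555b0ecd1647aa62bca639d16471f06eb1655aa62b1f06e968dac653970d63968dad0d476651dc6539d0d471e85e70d636651d1e85e8d936a54d568ce38d936a8cab6549da54d5a8cab1d83e68ce36549d1d83e

theorem O62 : chkO 355 L62 120 = true := by decide +kernel
theorem T62 : chkT C62.tab 1 L62 120 0 L62 120 = true := by decide +kernel

theorem step62 {n : ℕ} {H : Finset (Finset (Fin n))} (hH : ∀ e ∈ H, e.card = 3)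
    (hK : NoK4 (tri H)) :
    486 * (n * NF (tri H) 355) ≤ 29 * n ^ 6 + 5832 *
      (((univ : Finset (Fin n)).powersetCard 6).filter fun S =>
        (H.filter fun e => e ⊆ S).card = 14).card := by
  have h1 := C62.main (tri_sy H) hK
  rw [S5_eq (tri_sy H) O62 O62 T62, Fintype.card_fin] at h1
  have h2 := sum_XM_le hH hK
  have e : n * (1 * (120 * NF (tri H) 355) + 0 * (120 * NF (tri H) 355)) = 120 * (n * NF (tri H) 355) := by
    ring
  rw [e] at h1
  generalize n * NF (tri H) 355 = x at h1 ⊢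
  generalize n ^ 6 = A at h1 ⊢
  generalize (∑ x : Fin 6 → Fin n, Pool.Agent.Y850.FA.XM (tri H) 14 (x 0) (x 1) (x 2) (x 3) (x 4) (x 5)) = X at h1 h2
  generalize (((univ : Finset (Fin n)).powersetCard 6).filter fun S =>
        (H.filter fun e => e ⊆ S).card = 14).card = N at h2 ⊢
  omega

def L126 : ℕ := 0x7b1ecb6adacdb367b1ecce739b56d5b6adace73978de3cdb36b56d578de37b1ecb6adacdb367b1ecd1f47aaeabb6adad1f476759dcdb36aaeab6759d7b1ecce739b56d57b1ecd1f47aaeabce739d1f471f87eb56d5aaeab1f87eb6adace73978de3b6adad1f476759dce739d1f471f87e78de36759d1f87ecdb36b56d578de3cdb36aaeab6759db56d5aaeab1f87e78de36759d1f87e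

theorem O126 : chkO 725 L126 120 = true := by decide +kernel
theorem T126 : chkT C126.tab 1 L126 120 0 L126 120 = true := by decide +kernel

theorem step126 {n : ℕ} {H : Finset (Finset (Fin n))} (hH : ∀ e ∈ H, e.card = 3)
    (hK : NoK4 (tri H)) :
    486 * (n * NF (tri H) 725) ≤ 23 * n ^ 6 + 5832 *
      (((univ : Finset (Fin n)).powersetCard 6).filter fun S =>
        (H.filter fun e => e ⊆ S).card = 14).card := by
  have h1 := C126.main (tri_sy H) hK
  rw [S5_eq (tri_sy H) O126 O126 T126, Fintype.card_fin] at h1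
  have h2 := sum_XM_le hH hK
  have e : n * (1 * (120 * NF (tri H) 725) + 0 * (120 * NF (tri H) 725)) = 120 * (n * NF (tri H) 725) := by
    ring
  rw [e] at h1
  generalize n * NF (tri H) 725 = x at h1 ⊢
  generalize n ^ 6 = A at h1 ⊢
  generalize (∑ x : Fin 6 → Fin n, Pool.Agent.Y850.FA.XM (tri H) 14 (x 0) (x 1) (x 2) (x 3) (x 4) (x 5)) = X at h1 h2
  generalize (((univ : Finset (Fin n)).powersetCard 6).filter fun S =>
        (H.filter fun e => e ⊆ S).card = 14).card = N at h2 ⊢
  omega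

theorem stab {n : ℕ} {H : Finset (Finset (Fin n))} (hH : ∀ e ∈ H, e.card = 3)
    (hK : Pool.Agent.TH773.Turan34.K43Free H) {x d c : ℕ} (hc : 2 * c = d + 1) (h0 : n = 0 → x = 0)
    (h : 486 * (n * x) ≤ d * n ^ 6 + 5832 *
      (((univ : Finset (Fin n)).powersetCard 6).filter fun S =>
        (H.filter fun e => e ⊆ S).card = 14).card) :
    ∃ g : Fin n → Fin 3, n ^ 2 * (symmDiff H (Pool.Agent.TH773.Turan34.turan g)).card +
      209018880000 * x ≤ 860160000 * c * n ^ 5 := by
  obtain ⟨g, hg⟩ := Pool.Agent.Y850.FA.core hH hK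
  refine ⟨g, ?_⟩
  generalize (((univ : Finset (Fin n)).powersetCard 6).filter fun S =>
      (H.filter fun e => e ⊆ S).card = 14).card = N at hg h
  generalize (symmDiff H (Pool.Agent.TH773.Turan34.turan g)).card = s at hg ⊢
  rcases Nat.eq_zero_or_pos n with hn | hn
  · subst hn
    rw [h0 rfl]
    simp
  · have h1 : n * (n ^ 2 * s + 209018880000 * x) ≤ n * (860160000 * c * n ^ 5) := by
      have e1 : n * (n ^ 2 * s + 209018880000 * x) = n ^ 3 * s + 430080000 * (486 * (n * x)) := by ring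
      have e2 : n * (860160000 * c * n ^ 5) = 430080000 * ((2 * c) * n ^ 6) := by ring
      rw [e1, e2, hc, add_mul, one_mul]
      generalize n ^ 3 * s = y at hg ⊢
      generalize n * x = z at h ⊢
      generalize d * n ^ 6 = w at h ⊢
      generalize n ^ 6 = v at h hg ⊢
      omega
    exact Nat.le_of_mul_le_mul_left h1 hn

theorem homs_zero {F : Finset (Finset (Fin 5))} (H : Finset (Finset (Fin 0))) :
    homs F H = 0 := by
  unfold homs
  rw [card_eq_zero, filter_eq_empty_iff]
  intro x _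
  exact (x 0).elim0

theorem upper {n r d c : ℕ} {F : Finset (Finset (Fin 5))} (h3 : ∀ e ∈ F, e.card = 3)
    (hr : ends 7 (fb F {0,1,2}) (fb F {0,1,3}) (fb F {0,2,3}) (fb F {1,2,3}) (fb F {0,1,4}) (fb F {0,2,4}) (fb F {1,2,4}) (fb F {0,3,4}) (fb F {1,3,4}) (fb F {2,3,4}) = r)
    (hc : 2 * c = d + 1)
    {H : Finset (Finset (Fin n))} (hH : ∀ e ∈ H, e.card = 3)
    (hK : Pool.Agent.TH773.Turan34.K43Free H)
    (h : 486 * (n * NF (tri H) r) ≤ d * n ^ 6 + 5832 *
      (((univ : Finset (Fin n)).powersetCard 6).filter fun S =>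
        (H.filter fun e => e ⊆ S).card = 14).card) :
    ∃ g : Fin n → Fin 3, n ^ 2 * (symmDiff H (Pool.Agent.TH773.Turan34.turan g)).card +
      860160000 * (243 * homs F H) ≤ 860160000 * (c * n ^ 5) := by
  have e1 : homs F H = NF (tri H) r := homs_rep h3 H hr
  obtain ⟨g, hg⟩ := stab hH hK hc (x := NF (tri H) r)
    (fun h0 => by rw [← e1]; subst h0; exact homs_zero H) h
  refine ⟨g, ?_⟩
  rw [e1]
  calc _ = n ^ 2 * (symmDiff H (Pool.Agent.TH773.Turan34.turan g)).card +
        209018880000 * NF (tri H) r := by ring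
    _ ≤ 860160000 * c * n ^ 5 := hg
    _ = _ := by ring

end Pool.Agent.U991.F5
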